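import Pool.Agent.H57.AVG.Cgp
import Pool.Agent.H50.AVN.Vfp

/-!
# The places below the target are full, as a property of the windows, in pieces of the slopes

`VfPQ`: the two places below the target are full. `aePG_vf_or`, `aePG_vfp_or`: from two sets of slopes.
-/

set_option autoImplicit false

namespace Pool.AVG57

open Finset Real MvPolynomial MeasureTheory Filter Topology
open Pool.Agent.H49.Ent Pool.Agent.H32.Dense Pool.STK Pool.KA Pool.KSAT Pool.K2S Pool.PB Pool.S6C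
open Pool.GEN Pool.CHT Pool.CHX Pool.ISO Pool.RCD Pool.LA91 Pool.AVG96 Pool.AVG50 Pool.CDX
open Pool.PKG Pool.OWN68 Pool.OWN83 Pool.D2F2

/-- **The two places below the target are full**, as a property of the windows; the index is the
degree. -/
def VfPQ (v : ℕ) (Φ : (ℕ → ℝ) → Prop) (C₁ : (ℕ → ℝ) → ℝ) {n : ℕ} (K : ℕ) (_ : ℕ) (S : PCl n)
    (_ : List (Fin n) × Fin n → ℝ → ℝ → ℝ) (_ : ℝ) (c : ℕ → Fin n) (_ : ℝ → ℝ → ℝ)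
    (_ : ℝ → ℝ) (L _ : ℕ → ℝ → ℝ → ℝ) (_ : ℕ → Kg) (G : Set ℝ) (x : ℝ) : Prop :=
  ∀ Sl : ℕ → ℝ, (∀ l, 1 ≤ l → l ≤ v + 2 → HasDerivAt (fun w => L l w w) (Sl l) x) → Φ Sl →
    (∀ l, 1 ≤ l → l ≤ v + 2 → 1 < Sl l) → ∀ A B Λ' : ℚ, 0 ≤ A → (A : ℝ) < x → x < B →
    0 < Λ' → B + Λ' ≤ 1 →
    VfPG S c 1 v K (C₁ Sl) A B Λ' (fun w l => L l w w) G x Sl

section

variable {m : ℕ} {S S' : PCl m} {c : ℕ → Fin m} {r₀ v K : ℕ} {A B Λ C₁ C₁' : ℝ}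
  {sn : ℝ → ℕ → ℝ} {G : Set ℝ} {g : ℝ} {Sl : ℕ → ℝ}

/-- The moved place is full in a subclass. -/
theorem vfG_sub (h : VfG S c r₀ v A B Λ sn G g Sl)
    (hs : ∀ (τ : ℝ) (J : ℕ) (F : Fam m J) (A : F.Ω → Prop), S'.St τ J F A → S.St τ J F A) :
    VfG S' c r₀ v A B Λ sn G g Sl := by
  intro e C Cd he hC hCd
  obtain ⟨k, φ, hφ, H⟩ := h e C Cd he hC hCd
  refine ⟨k, φ, hφ, fun A₁ B₁ Λ₁ p₀ lam a1 a2 a3 a4 => ?_⟩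
  obtain ⟨ρ, hρ, H⟩ := H A₁ B₁ Λ₁ p₀ lam a1 a2 a3 a4
  refine ⟨ρ, hρ, fun R b1 b2 w hw j x b3 b4 δW q ξ μ ν φ' p s D b5 b6 b7 => ?_⟩
  obtain ⟨k', hk', e₀, he₀, H⟩ := H R b1 b2 w hw j x b3 b4 δW q ξ μ ν φ' p s D b5 b6 b7
  exact ⟨k', hk', e₀, he₀, fun K => (H K).sub hs⟩

/-- The pair of places is full in a subclass. -/
theorem vfPG_sub (h : VfPG S c r₀ v K C₁ A B Λ sn G g Sl)
    (hs : ∀ (τ : ℝ) (J : ℕ) (F : Fam m J) (A : F.Ω → Prop), S'.St τ J F A → S.St τ J F A) :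
    VfPG S' c r₀ v K C₁ A B Λ sn G g Sl := by
  intro e C Cd ν₀ he hC hCd hν₀
  obtain ⟨k, φ, hφ, H⟩ := h e C Cd ν₀ he hC hCd hν₀
  refine ⟨k, φ, hφ, fun A₁ B₁ Λ₁ p₀ lam a1 a2 a3 a4 => ?_⟩
  obtain ⟨ρ, hρ, H⟩ := H A₁ B₁ Λ₁ p₀ lam a1 a2 a3 a4
  refine ⟨ρ, hρ, fun R b1 b2 w hw j x b3 b4 δW q ξ μ ν φ' p s D b5 b6 b7 b8 b9 => ?_⟩
  obtain ⟨k', hk', e₀, he₀, H⟩ := H R b1 b2 w hw j x b3 b4 δW q ξ μ ν φ' p s D b5 b6 b7 b8 b9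
  exact ⟨k', hk', e₀, he₀, fun K => (H K).sub hs⟩

/-- More room. -/
theorem vfPG_le (h : VfPG S c r₀ v K C₁ A B Λ sn G g Sl) (hC : C₁ ≤ C₁') :
    VfPG S c r₀ v K C₁' A B Λ sn G g Sl := by
  intro e C Cd ν₀ he hC' hCd hν₀
  obtain ⟨k, φ, hφ, H⟩ := h e C Cd ν₀ he hC' hCd hν₀
  refine ⟨k, φ, hφ, fun A₁ B₁ Λ₁ p₀ lam a1 a2 a3 a4 => ?_⟩
  obtain ⟨ρ, hρ, H⟩ := H A₁ B₁ Λ₁ p₀ lam a1 a2 a3 a4
  refine ⟨ρ, hρ, fun R b1 b2 w hw j x b3 b4 δW q ξ μ ν φ' p s D b5 b6 b7 b8 b9 => ?_⟩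
  refine H R b1 b2 w hw j x b3 b4 δW q ξ μ ν φ' p s D b5 b6 b7 b8 fun l l0 l1 => ?_
  have h1 := b9 l l0 l1
  have h2 : 0 ≤ ξ + μ + ν := by linarith [b6.ξ0, b6.μ0, b6.ν0]
  have h3 := mul_le_mul_of_nonneg_right hC h2
  linarith

end

/-- **Two properties** which pass to subclasses hold at almost every window of one subclass. -/
theorem aePG_and {n : ℕ} {ι : Type} {Q₁ Q₂ Q : PropG n ι} (h1 : AePG n Q₁) (h2 : AePG n Q₂)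
    (H : ∀ {p : ι} {k₁ k₂ : ℕ} {S S' : PCl n} {P : List (Fin n) × Fin n → ℝ → ℝ → ℝ} {θ : ℝ}
      {c : ℕ → Fin n} {Pt : ℝ → ℝ → ℝ} {r : ℝ → ℝ} {L T : ℕ → ℝ → ℝ → ℝ} {κ : ℕ → Kg} {G : Set ℝ}
      {g : ℝ}, (∀ (τ : ℝ) (J : ℕ) (F : Fam n J) (A : F.Ω → Prop), S'.St τ J F A → S.St τ J F A) →
      Q₁ p k₁ S P θ c Pt r L T κ G g → Q₂ p k₂ S' P θ c Pt r L T κ G g →
      ∃ k : ℕ, Q p k S' P θ c Pt r L T κ G g) : AePG n Q := by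
  intro hn S P r P' Λ PB PQ Hp hTop hF o G hG hGs
  obtain ⟨S₁, a1, a2, a3⟩ := h1 hn S P r P' Λ PB PQ Hp hTop hF o G hG hGs
  have H₁ := Hp.sub a1 a2
  obtain ⟨S₂, b1, b2, b3⟩ := h2 hn S₁ P r P' Λ PB PQ H₁ hTop hF o G hG hGs
  refine ⟨S₂, b1, fun τ J F A h => a2 τ J F A (b2 τ J F A h), ?_⟩
  filter_upwards [a3, b3] with g k1 k2 hg κ hκ p
  obtain ⟨k₁, k1⟩ := k1 hg κ hκ p
  obtain ⟨k₂, k2⟩ := k2 hg κ hκ p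
  exact H b2 k1 k2

/-- **The moved place is full** for the slopes of two sets. -/
theorem aePG_vf_or {n v : ℕ} {Φ₁ Φ₂ Φ : (ℕ → ℝ) → Prop} (h1 : AePG n (VfQ v Φ₁ : PropG n Unit))
    (h2 : AePG n (VfQ v Φ₂ : PropG n Unit)) (hΦ : ∀ Sl, Φ Sl → Φ₁ Sl ∨ Φ₂ Sl) :
    AePG n (VfQ v Φ : PropG n Unit) := by
  refine aePG_and h1 h2 fun hs k1 k2 => ⟨0, fun Sl e1 e2 e3 A B Λ' a1 a2 a3 a4 a5 => ?_⟩
  rcases hΦ Sl e2 with e | e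
  · exact vfG_sub (k1 Sl e1 e e3 A B Λ' a1 a2 a3 a4 a5) hs
  · exact k2 Sl e1 e e3 A B Λ' a1 a2 a3 a4 a5

/-- **The pair of places is full** for the slopes of two sets. -/
theorem aePG_vfp_or {n v : ℕ} {Φ₁ Φ₂ Φ : (ℕ → ℝ) → Prop} {C₁ C₂ C : (ℕ → ℝ) → ℝ}
    (h1 : AePG n (VfPQ v Φ₁ C₁ : PropG n ℕ)) (h2 : AePG n (VfPQ v Φ₂ C₂ : PropG n ℕ))
    (hΦ : ∀ Sl, Φ Sl → (Φ₁ Sl ∧ C₁ Sl ≤ C Sl) ∨ (Φ₂ Sl ∧ C₂ Sl ≤ C Sl)) :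
    AePG n (VfPQ v Φ C : PropG n ℕ) := by
  refine aePG_and h1 h2 fun hs k1 k2 => ⟨0, fun Sl e1 e2 e3 A B Λ' a1 a2 a3 a4 a5 => ?_⟩
  rcases hΦ Sl e2 with ⟨e, e'⟩ | ⟨e, e'⟩
  · exact vfPG_le (vfPG_sub (k1 Sl e1 e e3 A B Λ' a1 a2 a3 a4 a5) hs) e'
  · exact vfPG_le (k2 Sl e1 e e3 A B Λ' a1 a2 a3 a4 a5) e'

/-- **The moved place is full** for a smaller set of slopes. -/
theorem aePG_vf_mono {n v : ℕ} {Φ₁ Φ : (ℕ → ℝ) → Prop} (h1 : AePG n (VfQ v Φ₁ : PropG n Unit))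
    (hΦ : ∀ Sl, Φ Sl → Φ₁ Sl) : AePG n (VfQ v Φ : PropG n Unit) :=
  aePG_vf_or h1 h1 fun Sl h => Or.inl (hΦ Sl h)

/-- **The pair of places is full** for a smaller set of slopes and more room. -/
theorem aePG_vfp_mono {n v : ℕ} {Φ₁ Φ : (ℕ → ℝ) → Prop} {C₁ C : (ℕ → ℝ) → ℝ}
    (h1 : AePG n (VfPQ v Φ₁ C₁ : PropG n ℕ)) (hΦ : ∀ Sl, Φ Sl → Φ₁ Sl ∧ C₁ Sl ≤ C Sl) :
    AePG n (VfPQ v Φ C : PropG n ℕ) :=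
  aePG_vfp_or h1 h1 fun Sl h => Or.inl (hΦ Sl h)

end Pool.AVG57
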