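import Pool.Agent.H71.CDX.Cdo

/-!
# A list of windows with a net

`netl_ex`: a list which contains a given list, the window `-1` and a net of the interval `[-W, W]`.
`LbR.deg`: labels of a larger degree.
-/

set_option autoImplicit false

namespace Pool.CDX

open Finset Real MvPolynomial
open Pool.Agent.H49.Ent Pool.Agent.H32.Dense Pool.STK Pool.KA Pool.KSAT Pool.K2S Pool.PB Pool.GEN
open Pool.S6C Pool.RCD Pool.LA91 Pool.OWN68 Pool.CHT
open Pool.AJX (LbX)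

/-- **A list with a net.** -/
theorem netl_ex {W e : ℝ} (hW : 0 ≤ W) (he : 0 < e) (N₁ : ℕ) (V₁ : ℕ → ℝ) {K₁ : ℝ}
    (h1 : ∀ k < N₁, -K₁ ≤ V₁ k ∧ V₁ k ≤ K₁) (X : ℝ) :
    ∃ (N : ℕ) (V : ℕ → ℝ) (K : ℝ), 0 < K ∧ K₁ ≤ K ∧ X ≤ K ∧ (∀ k < N, -K ≤ V k ∧ V k ≤ K) ∧
      (∀ k < N₁, ∃ j < N, V₁ k = V j) ∧ (∃ j < N, V j = -1) ∧
      ∀ u : ℝ, -W ≤ u → u ≤ W → ∃ k < N, u - e < V k ∧ V k < u := by
  obtain ⟨N₂, hN₂⟩ := exists_nat_ge (3 * (2 * W + e) / e)
  have hN₂' : 3 * (2 * W + e) ≤ N₂ * e := by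
    rwa [div_le_iff₀ he] at hN₂
  obtain ⟨V, hV⟩ : ∃ V : ℕ → ℝ, V = fun k => if k < N₁ then V₁ k else if k = N₁ then -1 else
      -W - e / 2 + ((k - (N₁ + 1) : ℕ) : ℝ) * (e / 3) := ⟨_, rfl⟩
  have v1 : ∀ k < N₁, V k = V₁ k := fun k hk => by rw [hV]; exact if_pos hk
  have v2 : V N₁ = -1 := by
    rw [hV]
    beta_reduce
    rw [if_neg (lt_irrefl _), if_pos rfl]
  have v3 : ∀ k, V (N₁ + 1 + k) = -W - e / 2 + (k : ℝ) * (e / 3) := fun k => by
    rw [hV]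
    beta_reduce
    rw [if_neg (by omega), if_neg (by omega), Nat.add_sub_cancel_left]
  have hN₂0 : (0 : ℝ) ≤ N₂ := Nat.cast_nonneg _
  refine ⟨N₁ + 1 + N₂, V, |K₁| + |X| + 1 + W + e + N₂ * e, by positivity, ?_, ?_, fun k hk => ?_,
    fun k hk => ⟨k, by omega, (v1 k hk).symm⟩, ⟨N₁, by omega, v2⟩, fun u hu1 hu2 => ?_⟩
  · have h2 := le_abs_self K₁
    have h3 := abs_nonneg X
    have h4 : 0 ≤ (N₂ : ℝ) * e := by positivity
    linarith
  · have h2 := le_abs_self X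
    have h3 := abs_nonneg K₁
    have h4 : 0 ≤ (N₂ : ℝ) * e := by positivity
    linarith
  · have h2 := le_abs_self K₁
    have h3 := abs_nonneg X
    have h4 : 0 ≤ (N₂ : ℝ) * e := by positivity
    have h5 := abs_nonneg K₁
    rcases lt_trichotomy k N₁ with h6 | h6 | h6
    · rw [v1 k h6]
      have := h1 k h6
      constructor <;> linarith
    · rw [h6, v2]
      constructor <;> linarith
    · obtain ⟨j, rfl⟩ : ∃ j, k = N₁ + 1 + j := ⟨k - (N₁ + 1), by omega⟩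
      rw [v3]
      have h7 : (j : ℝ) ≤ N₂ := by exact_mod_cast (show j ≤ N₂ by omega)
      have h8 : (0 : ℝ) ≤ j := Nat.cast_nonneg _
      have h9 : (j : ℝ) * (e / 3) ≤ N₂ * e := by
        have : (j : ℝ) * (e / 3) ≤ N₂ * (e / 3) := mul_le_mul_of_nonneg_right h7 (by positivity)
        have h10 : (N₂ : ℝ) * (e / 3) = N₂ * e / 3 := by ring
        linarith
      have h11 : 0 ≤ (j : ℝ) * (e / 3) := by positivity
      constructor <;> linarith
  · -- the net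
    obtain ⟨x, hx⟩ : ∃ x : ℝ, x = (u + W + e / 2) / (e / 3) := ⟨_, rfl⟩
    have hxe : x * (e / 3) = u + W + e / 2 := by rw [hx]; field_simp
    have hx0 : 0 < x := by
      by_contra hcon
      have := mul_nonpos_of_nonpos_of_nonneg (not_lt.1 hcon) (show 0 ≤ e / 3 by positivity)
      linarith
    have hc : 1 ≤ ⌈x⌉₊ := Nat.ceil_pos.2 hx0
    obtain ⟨k, hk⟩ : ∃ k, ⌈x⌉₊ = k + 1 := ⟨⌈x⌉₊ - 1, by omega⟩
    have k1 : x ≤ k + 1 := by
      have := Nat.le_ceil x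
      rw [hk] at this
      exact_mod_cast this
    have k2 : (k : ℝ) < x := by
      have := Nat.ceil_lt_add_one hx0.le
      rw [hk] at this
      push_cast at this
      linarith
    have k3 : k < N₂ := by
      have h2 : (k : ℝ) * (e / 3) < x * (e / 3) := mul_lt_mul_of_pos_right k2 (by positivity)
      have h3 : (k : ℝ) * e < N₂ * e := by
        have : (k : ℝ) * (e / 3) = k * e / 3 := by ring
        linarith
      have := lt_of_mul_lt_mul_right h3 he.le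
      exact_mod_cast this
    refine ⟨N₁ + 1 + k, by omega, ?_, ?_⟩
    · rw [v3]
      have h2 : x * (e / 3) ≤ (k + 1) * (e / 3) := mul_le_mul_of_nonneg_right k1 (by positivity)
      have h3 : ((k : ℝ) + 1) * (e / 3) = k * (e / 3) + e / 3 := by ring
      linarith
    · rw [v3]
      have h2 : (k : ℝ) * (e / 3) < x * (e / 3) := mul_lt_mul_of_pos_right k2 (by positivity)
      linarith

/-- **Labels of a larger degree.** -/
theorem LbR.deg {m : ℕ} {S : PCl m} {c : ℕ → Fin m} {r₀ K K' : ℕ} {sn : ℝ → ℕ → ℝ} {G : Set ℝ}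
    {g g₀ W ε : ℝ} {i : ℕ} (h : LbR S c r₀ K sn G g g₀ W ε i) (hK : K ≤ K') :
    LbR S c r₀ K' sn G g g₀ W ε i := fun w hw w1 w2 => by
  obtain ⟨b, hb, b1, b2, E, rd, h1, h2⟩ := h w hw w1 w2
  refine ⟨b, hb, b1, b2, E, rd, h1, fun e he => Bas.mono 0 (h2 e he) ?_⟩
  rintro J - F A ⟨V, z, z', gg, h3⟩
  exact ⟨V, z, z', gg, fun l a b' => (h3 l a b').mono (Finset.Subset.refl _) hK le_rfl le_rfl
    le_rfl⟩

end Pool.CDX
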