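import Pool.Agent.H31.AVN.Csq
import Pool.Agent.H31.AVN.Vor
import Pool.Agent.H57.AVN.Asn

/-!
# The closed gradient of the second place below the target at almost every window

`aePG_cgs`: the closed gradient at almost every window, in a subclass, from the fullness of the places.
-/

set_option autoImplicit false

namespace Pool.AVG57

open Finset Real MvPolynomial MeasureTheory Filter Topology
open Pool.Agent.H49.Ent Pool.Agent.H32.Dense Pool.STK Pool.KA Pool.KSAT Pool.K2S Pool.PB Pool.S6C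
open Pool.GEN Pool.CHT Pool.CHX Pool.ISO Pool.RCD Pool.LA91 Pool.AVG96 Pool.AVG50 Pool.CDX
open Pool.PKG Pool.OWN68 Pool.OWN83 Pool.D2F2
open Pool.TOP (TopS)

/-- The conclusion of `asm2_fin` for the constants `a` (second step) and `a'` (first step). -/
def AsmS (v K : ℕ) (hd ε : ℝ) (a a' : Cst) : Prop :=
  ∀ {m : ℕ} {S : PCl m} {c : ℕ → Fin m} {s₀ A B Λ : ℝ} {sn : ℝ → ℕ → ℝ} {G : Set ℝ}
    (_ : AsmC S c 1 (v + 1) s₀ A B Λ sn G) (_ : 1 ≤ v),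
  ∀ᵐ g : ℝ, A < g → g < B → ∀ Sl : ℕ → ℝ, SlpG sn 1 (v + 2) G g Sl → 1 < Sl (v + 2) →
    (∀ l, 1 ≤ l → l ≤ v + 1 → Sl l < 2 ∨ AfG S c sn G g l) →
    AtTg S c (v + 2) sn G g → RawG S c sn G g hd (v + 2) →
    VfG S c 1 (v + 1) A B Λ sn G g Sl →
    ∀ C₁ : ℝ, VfPG S c 1 v (2 * K + 1) C₁ A B Λ sn G g Sl →
    ∀ ξ₁ ν₁ C' : ℝ, 0 < ξ₁ → 0 < ν₁ → 0 < C' → ∃ Q₁ : ℝ, 0 < Q₁ ∧
      ∀ ξ₀ ν₀ C Nn : ℝ, 0 < ξ₀ → 0 < ν₀ → 0 < C → 0 < Nn →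
      ∃ Cm κ φ ρ : ℝ, 0 < Cm ∧ 0 < κ ∧ 0 < φ ∧ 0 < ρ ∧
      ∀ R : ℝ, 0 < R → R < ρ → LbR S c 1 K sn G g (Cm * R) (Cm * R) (κ * R) (v + 2) →
        ∀ w ∈ G, ∀ R' j' x' j x : ℝ, R' ≤ R →
        R ≤ Nn * R' → g - R' ≤ w → j' ≤ g + R' → x' ≤ g + R' → j ≤ g + R → x ≤ g + R →
        ∀ (δW q' ξ' μ' ν' q ξ μ ν φ' : ℝ) (p s : ℕ → ℝ),
        Bx2 sn 1 (v + 1) Sl w j' x' δW q' ξ' μ' ν' φ' (C' * R') p s →
        Bx2 sn 1 (v + 1) Sl w j x δW q ξ μ ν φ' (C * R) p s → φ' ≤ φ * R →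
        ξ₁ * R' ≤ ξ' → ν₁ * R' ≤ ν' → μ' ≤ a'.θ * ξ' → ν' ≤ a'.θ * ξ' → a'.θ * ξ' + ν' ≤ q' →
        ξ₀ * R ≤ ξ → ν₀ * R ≤ ν → μ ≤ a.θ * ξ → ν ≤ a.θ * ξ → a.θ * ξ + ν ≤ q →
        (∀ l, 1 ≤ l → l ≤ v + 1 → Sl l * (x - w) + C₁ * (ξ + μ + ν) ≤ q) →
        Q₁ * R' ≤ q → q' + ξ' + μ' ≤ q → q' + ξ' + ν ≤ q → ξ < a'.κ * ξ' → μ ≤ μ' →
        CGs S c v K w δW j' x' j x p s q' ξ' q ξ μ a.κ a.ι a.k ε

theorem asmS_ex (v K : ℕ) {hd ε : ℝ} (hh : 0 < hd) (hh1 : hd ≤ 1) (hε : 0 < ε) :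
    ∃ a a' : Cst, a.Ok ∧ a'.Ok ∧ AsmS v K hd ε a a' := by
  obtain ⟨κ₁, κ₂, ι, θ, k₁, a1, a2, a3, a4, a5, a6, a7, H⟩ := asm2_fin v K hh hh1 hε
  exact ⟨⟨κ₂, ι, θ, k₁⟩, ⟨κ₁, 1, θ, 0⟩, ⟨a3, a4, a5, a6, a7⟩, ⟨a1, a2, one_pos, a6, a7⟩, H⟩

/-- **The closed gradient of the second place below the target at almost every window**, in a
subclass, if the places are full. The constants depend on `v`, `h` and the degree only. `C₁` depends on the slopes of the chain. -/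
theorem aePG_cgs {v : ℕ} (hv1 : 1 ≤ v) {Φ : (ℕ → ℝ) → Prop} (C₁ : (ℕ → ℝ) → ℝ)
    (hCc : ∀ Sl Sl' : ℕ → ℝ, (∀ l, 1 ≤ l → l ≤ v + 2 → Sl l = Sl' l) → C₁ Sl = C₁ Sl') {h εg : ℝ}
    (hh : 0 < h) (hh1 : h ≤ 1) (hεg : 0 < εg) : ∃ cs cs' : ℕ → Cst, (∀ K, (cs K).Ok) ∧
      (∀ K, (cs' K).Ok) ∧
      ∀ {n : ℕ}, n = 4 → v + 3 = n → AePG n (VfQ (v + 1) Φ : PropG n Unit) →
      AePG n (VfPQ v Φ C₁ : PropG n ℕ) →
      AePG n (CgsE v Φ C₁ h εg cs cs' : PropG n (ℕ × ℕ)) := by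
  choose cs cs' hok hok' hcs using fun K => asmS_ex v K (show 0 < h / 2 by linarith)
    (show h / 2 ≤ 1 by linarith) hεg
  refine ⟨cs, cs', hok, hok', ?_⟩
  intro n hn4 hvn hvf hvp hn S P r P' Λ PB PQ H hTop hF o G hG hGs
  have hv' : v + 2 = n - 1 := by omega
  obtain ⟨S₁, a1, a2, a3⟩ := tgt_attU H.toPk hTop hF
  have H₁ := H.sub a1 a2
  obtain ⟨S₂, b1, b2, b3⟩ := asmC_all H₁.toPkT hTop hF hG hGs (v := v + 1) (by omega) hv'.le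
  have H₂ := H₁.sub b1 b2
  obtain ⟨S₃, c1, c2, c3⟩ := aePG_af n hn S₂ P r P' Λ PB PQ H₂ hTop hF o G hG hGs
  have H₃ := H₂.sub c1 c2
  obtain ⟨S₃', c1', c2', c3'⟩ := hvf hn S₃ P r P' Λ PB PQ H₃ hTop hF o G hG hGs
  have H₃' := H₃.sub c1' c2'
  obtain ⟨S₄, d1, d2', d3⟩ := hvp hn S₃' P r P' Λ PB PQ H₃' hTop hF o G hG hGs
  have H₄ := H₃'.sub d1 d2'
  have d2 : ∀ (τ : ℝ) (J : ℕ) (F : Fam n J) (A : F.Ω → Prop), S₄.St τ J F A → S₃.St τ J F A :=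
    fun τ J F A h => c2' τ J F A (d2' τ J F A h)
  have s2 : ∀ (τ : ℝ) (J : ℕ) (F : Fam n J) (A : F.Ω → Prop), S₄.St τ J F A → S₂.St τ J F A :=
    fun τ J F A h => c2 τ J F A (d2 τ J F A h)
  have s1 : ∀ (τ : ℝ) (J : ℕ) (F : Fam n J) (A : F.Ω → Prop), S₄.St τ J F A → S₁.St τ J F A :=
    fun τ J F A h => b2 τ J F A (s2 τ J F A h)
  refine ⟨S₄, d1, fun τ J F A h => a2 τ J F A (s1 τ J F A h), ?_⟩
  have hX : ∀ A B Λ' : ℝ, 0 ≤ A → 0 < Λ' → B + Λ' ≤ 1 → B ≤ 1 → Λ' ≤ 1 →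
      AsmC S₄ (cc hn o.1.1) 1 (v + 1) 0 A B Λ' (fun w l => LvL hn P P' o l w w) G :=
    fun A B Λ' k1 k2 k3 k4 k5 => (b3 A B Λ' k1 k2 k3 k4 k5).sub d1 s2
  have hall : ∀ᵐ g : ℝ, ∀ (K : ℕ) (x : {x : ℚ × ℚ // 0 < x.2 ∧ x.1 + x.2 ≤ 1 ∧ 0 ≤ x.1}),
      (0 : ℝ) < g → g < x.1.1 → ∀ Sl : ℕ → ℝ,
      SlpG (fun w l => LvL hn P P' o l w w) 1 (v + 2) G g Sl → 1 < Sl (v + 2) →
      (∀ l, 1 ≤ l → l ≤ v + 1 → Sl l < 2 ∨
        AfG S₄ (cc hn o.1.1) (fun w l => LvL hn P P' o l w w) G g l) →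
      AtTg S₄ (cc hn o.1.1) (v + 2) (fun w l => LvL hn P P' o l w w) G g →
      RawG S₄ (cc hn o.1.1) (fun w l => LvL hn P P' o l w w) G g (h / 2) (v + 2) →
      VfG S₄ (cc hn o.1.1) 1 (v + 1) 0 x.1.1 x.1.2 (fun w l => LvL hn P P' o l w w) G g Sl →
      ∀ C₁ : ℝ, VfPG S₄ (cc hn o.1.1) 1 v (2 * K + 1) C₁ 0 x.1.1 x.1.2
        (fun w l => LvL hn P P' o l w w) G g Sl →
      ∀ ξ₁ ν₁ C' : ℝ, 0 < ξ₁ → 0 < ν₁ → 0 < C' → ∃ Q₁ : ℝ, 0 < Q₁ ∧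
        ∀ ξ₀ ν₀ C Nn : ℝ, 0 < ξ₀ → 0 < ν₀ → 0 < C → 0 < Nn →
        ∃ Cm κ φ ρ : ℝ, 0 < Cm ∧ 0 < κ ∧ 0 < φ ∧ 0 < ρ ∧
        ∀ R : ℝ, 0 < R → R < ρ →
          LbR S₄ (cc hn o.1.1) 1 K (fun w l => LvL hn P P' o l w w) G g (Cm * R) (Cm * R) (κ * R)
            (v + 2) → ∀ w ∈ G, ∀ R' j' x' j x : ℝ, R' ≤ R →
          R ≤ Nn * R' → g - R' ≤ w → j' ≤ g + R' → x' ≤ g + R' → j ≤ g + R → x ≤ g + R →
          ∀ (δW q' ξ' μ' ν' q ξ μ ν φ' : ℝ) (p s : ℕ → ℝ),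
          Bx2 (fun w l => LvL hn P P' o l w w) 1 (v + 1) Sl w j' x' δW q' ξ' μ' ν' φ' (C' * R')
            p s →
          Bx2 (fun w l => LvL hn P P' o l w w) 1 (v + 1) Sl w j x δW q ξ μ ν φ' (C * R) p s →
          φ' ≤ φ * R → ξ₁ * R' ≤ ξ' → ν₁ * R' ≤ ν' → μ' ≤ (cs' K).θ * ξ' →
          ν' ≤ (cs' K).θ * ξ' → (cs' K).θ * ξ' + ν' ≤ q' →
          ξ₀ * R ≤ ξ → ν₀ * R ≤ ν → μ ≤ (cs K).θ * ξ → ν ≤ (cs K).θ * ξ →
          (cs K).θ * ξ + ν ≤ q →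
          (∀ l, 1 ≤ l → l ≤ v + 1 → Sl l * (x - w) + C₁ * (ξ + μ + ν) ≤ q) →
          Q₁ * R' ≤ q → q' + ξ' + μ' ≤ q → q' + ξ' + ν ≤ q → ξ < (cs' K).κ * ξ' → μ ≤ μ' →
          CGs S₄ (cc hn o.1.1) v K w δW j' x' j x p s q' ξ' q ξ μ (cs K).κ (cs K).ι (cs K).k
            εg := by
    rw [ae_all_iff]
    intro K
    rw [ae_all_iff]
    rintro ⟨⟨B, Λ'⟩, k1, k2, k3⟩
    have k1' : (0 : ℝ) < (Λ' : ℝ) := by exact_mod_cast k1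
    have k2' : (B : ℝ) + Λ' ≤ 1 := by exact_mod_cast k2
    have k3' : (0 : ℝ) ≤ (B : ℝ) := by exact_mod_cast k3
    exact hcs K (hX 0 B Λ' le_rfl k1' k2' (by linarith) (by linarith)) hv1
  have hrl : ∀ᵐ Q : ℝ, DifferentiableAt ℝ r Q := H.toPk.rate.lip.ae_differentiableAt_real
  have hrat : ∀ᵐ g : ℝ, DifferentiableAt ℝ (dgP P) g → 0 < deriv (dgP P) g →
      dgP P g ∉ {Q | ¬ DifferentiableAt ℝ r Q} :=
    Pool.STR.ae_notMem_of_null (dgP_mono (H.toPk.tgs.law ())) (ae_iff.1 hrl)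
  filter_upwards [hall, hrat, gap_ae hG, c3, c3', d3] with g h1 h2 h3 h4 h5 h6 hg κ hκ p
  obtain ⟨K, N'⟩ := p
  have hg0 : 0 < g := (hGs hg).1.1.1
  have hg1 : g < 1 := (hGs hg).1.1.2.1
  -- the slopes
  by_cases hex : ∃ Sl : ℕ → ℝ, (∀ l, 1 ≤ l → l ≤ v + 2 →
      HasDerivAt (fun w => LvL hn P P' o l w w) (Sl l) g) ∧ Φ Sl ∧
      ∀ l, 1 ≤ l → l ≤ v + 2 → 1 < Sl l
  swap
  · exact ⟨0, fun N => ⟨0, fun Sl e1 e2 e3 => absurd ⟨Sl, e1, e2, e3⟩ hex⟩⟩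
  obtain ⟨Sl₁, e1, e2, e3⟩ := hex
  have hslp : SlpG (fun w l => LvL hn P P' o l w w) 1 (v + 2) G g Sl₁ :=
    slpG_of (fun l l0 l1 => by linarith [e3 l l0 l1]) (fun l l0 l1 => e3 l l0 (by omega))
      (fun l l0 l1 => (e1 l l0 l1).hasDerivWithinAt) (h3 hg)
  -- the rate is differentiable
  have hP : (fun w => LvL hn P P' o (v + 2) w w) = fun w => P w w := by
    rw [hv', lvL_last]
  have hdP : HasDerivAt (fun w => P w w) (Sl₁ (v + 2)) g := by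
    have := e1 (v + 2) (by omega) le_rfl
    rwa [hP] at this
  have hev : dgP P =ᶠ[𝓝 g] fun w => P w w := by
    filter_upwards [Ioo_mem_nhds hg0 hg1] with w hw
    exact dgP_eq P hw.1.le hw.2.le
  have hdP' := hdP.congr_of_eventuallyEq hev
  have hrd : DifferentiableAt ℝ r (P g g) := by
    have k1 := h2 hdP'.differentiableAt (by
      rw [hdP'.deriv]
      linarith [e3 (v + 2) (by omega) le_rfl])
    rw [dgP_eq P hg0.le hg1.le] at k1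
    by_contra k2
    exact k1 k2
  obtain ⟨ρ', hρ'⟩ : ∃ ρ' : ℝ, HasDerivAt r ρ' (P g g) := ⟨_, hrd.hasDerivAt⟩
  have hLP : LvL hn P P' o (v + 2) g g = P g g := by rw [hv', lvL_last]
  obtain ⟨kr, hkr⟩ := row_deriv hh hρ'
  by_cases hrow : ρ' ≤ 1 - h / 2
  swap
  · refine ⟨0, fun N => ⟨kr, fun Sl _ _ _ R hR hRk hrw => ?_⟩⟩
    rw [hLP] at hrw
    exact absurd (hkr kr le_rfl R hR hRk hrw) hrow
  -- the inputs at `g`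
  have hTg : AtTg S₄ (cc hn o.1.1) (v + 2) (fun w l => LvL hn P P' o l w w) G g := by
    refine ⟨tht o.2 / 2, by linarith [tht_pos o.2], 1, one_pos, fun w hw _ _ => ?_⟩
    obtain ⟨rk, E, t1, t2, t3, t4, t5⟩ := a3 o w (hGs hw)
    refine ⟨rk, E, t1, t2, t3, ?_, ?_⟩
    · show E + LvL hn P P' o (v + 2) w w + tht o.2 / 2 ≤ 1
      rw [hv']
      exact t4
    · show AttG S₄ ((range (v + 2)).image (cc hn o.1.1)) (cc hn o.1.1 (v + 2)) w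
        (LvL hn P P' o (v + 2) w w) rk E
      rw [hv']
      exact t5.sub s1
  have hraw : RawG S₄ (cc hn o.1.1) (fun w l => LvL hn P P' o l w w) G g (h / 2) (v + 2) := by
    refine rawG_rate H₄.toPk.tmc (rt := r) ?_ ?_ hslp hg (by omega) le_rfl ?_ ?_ (ρ' := ρ') ?_ hrow
    · rw [hv', cc_top]
      exact H₄.toPk.rate
    · rw [hv', cc_top]
      exact V0F.img_lst hn o.1.1
    · show 0 < LvL hn P P' o (v + 2) g g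
      rw [hLP]
      exact hg0.trans_le (H.toPk.tgs.low () g g hg0.le le_rfl hg1.le)
    · show LvL hn P P' o (v + 2) g g < 1
      rw [hLP]
      exact tgt_lt H.toPk hTop hF (hGs hg)
    · show HasDerivAt r ρ' (LvL hn P P' o (v + 2) g g)
      rw [hLP]
      exact hρ'
  have hsrs : ∀ l, 1 ≤ l → l ≤ v + 1 → Sl₁ l < 2 ∨
      AfG S₄ (cc hn o.1.1) (fun w l => LvL hn P P' o l w w) G g l := by
    intro l l0 l1
    right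
    obtain ⟨_, k2⟩ := h4 hg κ hκ ()
    have k3 := k2 (by omega) (by
      rw [(e1 1 le_rfl (by omega)).deriv]
      exact e3 1 le_rfl (by omega))
    obtain rfl | rfl : l = 1 ∨ l = 2 := by omega
    · exact k3.1.sub d2
    · exact k3.2.sub d2
  -- the interval
  obtain ⟨B, B1, B2⟩ := exists_rat_btwn hg1
  have hB0 : (0 : ℝ) < B := hg0.trans B1
  have hB0' : (0 : ℚ) < B := by exact_mod_cast hB0
  have hB1' : B < (1 : ℚ) := by exact_mod_cast B2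
  obtain ⟨_, hvf'⟩ := h5 hg κ hκ ()
  have hvfg := vfG_sub (hvf' Sl₁ e1 e2 e3 0 B (1 - B) le_rfl (by push_cast; exact hg0) B1
    (by linarith) (by linarith)) d2'
  obtain ⟨_, hvp'⟩ := h6 hg κ hκ (2 * K + 1)
  have hvpg := hvp' Sl₁ e1 e2 e3 0 B (1 - B) le_rfl (by push_cast; exact hg0) B1 (by linarith)
    (by linarith)
  have hN' : (0 : ℝ) < N' + 1 := by positivity
  obtain ⟨Q₁, hQ₁, HH⟩ := h1 K ⟨(B, 1 - B), by linarith, by linarith,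
    hB0'.le⟩ hg0 B1 Sl₁ hslp (e3 (v + 2) (by omega) le_rfl) hsrs hTg hraw
    (by push_cast at hvfg ⊢; exact hvfg) (C₁ Sl₁) (by push_cast at hvpg ⊢; exact hvpg)
    (1 / (N' + 1)) (1 / (N' + 1)) (N' + 1) (by positivity) (by positivity) hN'
  obtain ⟨k₁, hk₁⟩ := exists_nat_gt Q₁
  refine ⟨k₁, fun N => ?_⟩
  have hN : (0 : ℝ) < N + 1 := by positivity
  obtain ⟨Cm, κ', φ₀, ρ, f1, f2, f3, f4, HH⟩ := HH (1 / (N + 1)) (1 / (N + 1)) (N + 1) (N + 1)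
    (by positivity) (by positivity) hN hN
  obtain ⟨k₂, hk₂⟩ := exists_pow_lt_of_lt_one (lt_min (lt_min f2 f3) f4)
    (show (1 / 2 : ℝ) < 1 by norm_num)
  obtain ⟨k₃, hk₃⟩ := exists_nat_gt Cm
  refine ⟨max k₂ k₃, ?_⟩
  intro Sl g1 g2 g3 R hR hRk _ hLb w hw R' j' x' j x hRR hRN w1 j1' x1' j1 x1 δW q' ξ' μ' ν' q ξ
    μ ν φ' pl sl Nm' Nm hφ' hξ' hν' hμ' hνθ' hθq' hξ hν hμ hνθ hθq hQq hqq hqν hξξ hμμ hC₁
  have hpw : (1 / 2 : ℝ) ^ (max k₂ k₃) ≤ (1 / 2) ^ k₂ :=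
    pow_le_pow_of_le_one (by norm_num) (by norm_num) (le_max_left _ _)
  have m1 : (1 / 2 : ℝ) ^ (max k₂ k₃) < κ' := by
    have := min_le_left (min κ' φ₀) ρ
    have := min_le_left κ' φ₀
    linarith
  have m2 : (1 / 2 : ℝ) ^ (max k₂ k₃) < φ₀ := by
    have := min_le_left (min κ' φ₀) ρ
    have := min_le_right κ' φ₀
    linarith
  have m3 : (1 / 2 : ℝ) ^ (max k₂ k₃) < ρ := by
    have := min_le_right (min κ' φ₀) ρ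
    linarith
  have m4 : Cm ≤ 2 ^ (max k₂ k₃) := by
    have k1 : (k₃ : ℝ) ≤ 2 ^ k₃ := by
      have := Nat.lt_two_pow_self (n := k₃)
      exact_mod_cast this.le
    have k2 : (2 : ℝ) ^ k₃ ≤ 2 ^ (max k₂ k₃) := pow_le_pow_right₀ (by norm_num)
      (le_max_right _ _)
    linarith
  have hSlE : ∀ l, 1 ≤ l → l ≤ v + 2 → Sl₁ l = Sl l := fun l l0 l1 =>
    (e1 l l0 l1).unique (g1 l l0 l1)
  rw [abs_le] at w1 j1' x1' j1 x1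
  have hR' : 0 ≤ R' := by linarith [w1.1, w1.2]
  have hQ1 : Q₁ * R' ≤ 2 ^ k₁ * R' := by
    refine mul_le_mul_of_nonneg_right ?_ hR'
    have k1 : (k₁ : ℝ) ≤ 2 ^ k₁ := by
      have := Nat.lt_two_pow_self (n := k₁)
      exact_mod_cast this.le
    linarith
  refine HH R hR (hRk.trans m3) ?_ w hw R' j' x' j x hRR hRN (by linarith [w1.1])
    (by linarith [j1'.2]) (by linarith [x1'.2]) (by linarith [j1.2])
    (by linarith [x1.2]) δW q' ξ' μ' ν' q ξ μ ν φ' pl sl (bx2_congr Nm' hSlE)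
    (bx2_congr Nm hSlE) ?_ ?_ ?_ hμ' hνθ' hθq' ?_ ?_ hμ hνθ hθq ?_ (hQ1.trans hQq) hqq.le hqν hξξ
    hμμ
  · exact hLb.mono (mul_le_mul_of_nonneg_right m4 hR.le) (mul_le_mul_of_nonneg_right m4 hR.le)
      (mul_le_mul_of_nonneg_right m1.le hR.le)
  · exact hφ'.trans (mul_le_mul_of_nonneg_right m2.le hR.le)
  · rw [one_div, inv_mul_eq_div]
    exact hξ'
  · rw [one_div, inv_mul_eq_div]
    exact hν'
  · rw [one_div, inv_mul_eq_div]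
    exact hξ
  · rw [one_div, inv_mul_eq_div]
    exact hν
  · intro l l0 l1
    rw [hSlE l l0 (by omega), hCc Sl₁ Sl hSlE]
    exact hC₁ l l0 l1

end Pool.AVG57
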