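import Pool.Agent.H57.AVG.Cgq
import Pool.Agent.H57.AVN.Cgs

/-!
# The closed gradient of the second place below the target as a property of the windows

`MuC.bx2`: the numbers of a box at the window `t - q` of a record. `CgsE`: at the window `g`, in all
small boxes A (scale `R'`) and B (scale `R`), the gradient in the direction of the place `v` is closed
up to mass `εg`; target `v + 2`. `CgsQ`: `εg = 1 / 2`. `cgs_use`: the closed gradient at the windows of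
a record.
-/

set_option autoImplicit false

namespace Pool.AVG57

open Finset Real MvPolynomial MeasureTheory Filter Topology
open Pool.Agent.H49.Ent Pool.Agent.H32.Dense Pool.STK Pool.KA Pool.KSAT Pool.K2S Pool.PB Pool.S6C
open Pool.GEN Pool.CHT Pool.CHX Pool.ISO Pool.RCD Pool.LA91 Pool.AVG96 Pool.AVG50 Pool.CDX
open Pool.PKG

/-- **The numbers of a box at the window `t - q`** of a record, from the numbers in the units of the
record. -/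
theorem MuC.bx2 {n v : ℕ} {S : PCl n} {P : List (Fin n) × Fin n → ℝ → ℝ → ℝ} {θ : ℝ}
    {c : ℕ → Fin n} {Pt : ℝ → ℝ → ℝ} {r : ℝ → ℝ} {L T : ℕ → ℝ → ℝ → ℝ} {κ : ℕ → Kg} {G : Set ℝ}
    {g h : ℝ} (hv : v + 2 = n) {Sl : ℕ → ℝ} {X vj qr ξ μ ν dW yp K₀ M th C e : ℝ}
    (Nm : MuC v Sl X vj qr ξ μ ν dW yp th K₀ M C e) (hK₀ : 0 ≤ K₀) (hC : 1 ≤ C)
    {al : ℝ} {g₀ : ℝ → ℝ} {P₂ : ℕ → List (Fin n) × Fin n → ℝ → ℝ → ℝ} {θ₂ Eb e₂ : ℕ → ℝ}
    {S₀ N₀ : ℕ} {A V : ℕ → ℝ} {S₂ N' : ℕ} {V' : ℕ → ℝ} {K' ε q t : ℝ}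
    (R : RecG S al g₀ P θ P₂ θ₂ Eb e₂ c Pt r h K₀ g L T Sl κ G S₀ N₀ A V S₂ N' V' K' ε q t)
    (hε1 : ε ≤ 1) (hK' : (K₀ + 1) * (Sl (v + 1) + 1) + M ≤ K') (hs1 : 1 < Sl (v + 1))
    (hyK : yp + 4 ≤ K') :
    Bx2 (fun w l => L l w w) 1 v Sl (t - q) (t + vj * q) (t + X * q) (dW * q) (qr * q) (ξ * q)
      (μ * q) (ν * q) (yp * q) (C * (M * q)) (fun l => L l (t - q) (t - q) - yp * q)
      (fun l => L l (t - q) (t - q)) := by
  have hq0 := R.q0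
  have hM1 := Nm.M1
  have hM0 : 0 < M := by linarith
  have hMq : 0 < M * q := mul_pos hM0 hq0
  have hK0' : K₀ ≤ K' := by nlinarith
  have hK1' : 1 ≤ K' := by nlinarith
  have xK : |t - q - t| ≤ K' * q := by
    have e1 : t - q - t = -q := by ring
    rw [e1, abs_neg, abs_of_pos hq0]
    nlinarith
  have ht0 := R.t0
  have ht1 := R.t1
  have hlow : ∀ l, l < n → t - q ≤ L l (t - q) (t - q) := fun l hl =>
    R.low_at hl (by nlinarith) le_rfl (by nlinarith)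
  have hyp : yp * q ≤ t - q := by nlinarith
  exact {
    q0 := mul_pos Nm.q0 hq0
    ξ0 := mul_pos Nm.ξ0 hq0
    μ0 := mul_pos Nm.μ0 hq0
    ν0 := mul_pos Nm.ν0 hq0
    δ0 := mul_pos Nm.δ0 hq0
    δν := by have := mul_le_mul_of_nonneg_right Nm.δν hq0.le; linarith
    δξ := mul_le_mul_of_nonneg_right Nm.δξ hq0.le
    φν := by have := mul_le_mul_of_nonneg_right Nm.yν hq0.le; linarith
    φμ := mul_lt_mul_of_pos_right Nm.yμ hq0
    wj := by have := mul_le_mul_of_nonneg_right Nm.j0 hq0.le; linarith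
    wx := by have := mul_le_mul_of_nonneg_right Nm.X0 hq0.le; linarith
    jn := fun l l0 l1 => by
      have := mul_le_mul_of_nonneg_right (Nm.jn l l0 l1) hq0.le
      nlinarith
    xn := fun l l0 l1 => by
      have := mul_le_mul_of_nonneg_right (Nm.xn l l0 l1) hq0.le
      nlinarith
    xq := by
      have := mul_le_mul_of_nonneg_right Nm.xq hq0.le
      nlinarith
    qC := by
      have := mul_le_mul_of_nonneg_right Nm.qC hq0.le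
      nlinarith
    base := fun l hl => by
      obtain rfl : l = 0 := by omega
      have h1 := hlow 0 (by omega)
      have h2 := (abs_le.1 (R.l0 (t - q) xK)).2
      have h3 : ε * q ≤ 1 * q := mul_le_mul_of_nonneg_right hε1 hq0.le
      have h4 : 0 ≤ yp * q := mul_nonneg Nm.y0 hq0.le
      have h5 : 1 * q ≤ C * (M * q) := by
        have h6 : 1 * (1 * q) ≤ C * (M * q) :=
          mul_le_mul hC (mul_le_mul_of_nonneg_right (by linarith) hq0.le) (by linarith)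
            (by linarith)
        linarith
      refine ⟨by linarith, by linarith, ?_⟩
      show L 0 (t - q) (t - q) ≤ t - q + C * (M * q)
      linarith
    sc := fun _ _ _ => rfl
    p0 := fun l l0 l1 => by
      have h1 := hlow l (by omega)
      linarith
    pc := fun l l0 l1 => ⟨le_rfl, by
      have h4 : 0 ≤ yp * q := mul_nonneg Nm.y0 hq0.le
      linarith⟩ }

/-- **The closed gradient of the second place below the target in all small boxes near the window**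
`g`. `p.1`: the degree of the labels; `p.2`: the bound of the numbers of the box A (scale `R'`, first
step); `N`: the bound of the numbers of the box B (scale `R`). `k₁` depends on `p` only: the digits of
the box B are larger than `2 ^ k₁ R'`. `C₁`: the margin of the far window of the box B. -/
def CgsE (v : ℕ) (Φ : (ℕ → ℝ) → Prop) (C₁ : (ℕ → ℝ) → ℝ) (h εg : ℝ) (cs cs' : ℕ → Cst) {n : ℕ}
    (p : ℕ × ℕ) (k₁ : ℕ)
    (S : PCl n) (_ : List (Fin n) × Fin n → ℝ → ℝ → ℝ) (_ : ℝ) (c : ℕ → Fin n)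
    (_ : ℝ → ℝ → ℝ) (r : ℝ → ℝ) (L _ : ℕ → ℝ → ℝ → ℝ) (_ : ℕ → Kg) (G : Set ℝ) (g : ℝ) : Prop :=
  ∀ N : ℕ, ∃ k₀ : ℕ, ∀ Sl : ℕ → ℝ,
    (∀ l, 1 ≤ l → l ≤ v + 2 → HasDerivAt (fun w => L l w w) (Sl l) g) → Φ Sl →
    (∀ l, 1 ≤ l → l ≤ v + 2 → 1 < Sl l) → ∀ R : ℝ, 0 < R → R < (1 / 2) ^ k₀ →
    RowR r (L (v + 2) g g) h R ((1 / 2) ^ k₀ * R) →
    LbR S c 1 p.1 (fun w l => L l w w) G g (2 ^ k₀ * R) (2 ^ k₀ * R) ((1 / 2) ^ k₀ * R)
      (v + 2) →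
    ∀ w ∈ G, ∀ R' j' x' j x : ℝ, R' ≤ R → R ≤ (N + 1) * R' → |w - g| ≤ R' → |j' - g| ≤ R' →
      |x' - g| ≤ R' → |j - g| ≤ R → |x - g| ≤ R →
      ∀ (δW q' ξ' μ' ν' q ξ μ ν φ : ℝ) (pl sl : ℕ → ℝ),
      Bx2 (fun w l => L l w w) 1 (v + 1) Sl w j' x' δW q' ξ' μ' ν' φ ((p.2 + 1) * R') pl sl →
      Bx2 (fun w l => L l w w) 1 (v + 1) Sl w j x δW q ξ μ ν φ ((N + 1) * R) pl sl →
      φ ≤ (1 / 2) ^ k₀ * R → R' / (p.2 + 1) ≤ ξ' → R' / (p.2 + 1) ≤ ν' →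
      μ' ≤ (cs' p.1).θ * ξ' → ν' ≤ (cs' p.1).θ * ξ' → (cs' p.1).θ * ξ' + ν' ≤ q' →
      R / (N + 1) ≤ ξ → R / (N + 1) ≤ ν → μ ≤ (cs p.1).θ * ξ → ν ≤ (cs p.1).θ * ξ →
      (cs p.1).θ * ξ + ν ≤ q → 2 ^ k₁ * R' ≤ q → q' + ξ' + μ' < q → q' + ξ' + ν ≤ q →
      ξ < (cs' p.1).κ * ξ' → μ ≤ μ' →
      (∀ l, 1 ≤ l → l ≤ v + 1 → Sl l * (x - w) + C₁ Sl * (ξ + μ + ν) ≤ q) →
      CGs S c v p.1 w δW j' x' j x pl sl q' ξ' q ξ μ (cs p.1).κ (cs p.1).ι (cs p.1).k εg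

/-- The closed gradient up to mass `1 / 2`. -/
abbrev CgsQ (v : ℕ) (Φ : (ℕ → ℝ) → Prop) (C₁ : (ℕ → ℝ) → ℝ) (h : ℝ) (cs cs' : ℕ → Cst) {n : ℕ}
    (p : ℕ × ℕ) (k₁ : ℕ)
    (S : PCl n) (P : List (Fin n) × Fin n → ℝ → ℝ → ℝ) (θ : ℝ) (c : ℕ → Fin n)
    (Pt : ℝ → ℝ → ℝ) (r : ℝ → ℝ) (L T : ℕ → ℝ → ℝ → ℝ) (κ : ℕ → Kg) (G : Set ℝ) (g : ℝ) : Prop :=
  CgsE v Φ C₁ h (1 / 2) cs cs' p k₁ S P θ c Pt r L T κ G g

/-- **The closed gradient of the second place below the target at the window `t - q` of a record.** -/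
theorem cgs_use {v : ℕ} {Φ : (ℕ → ℝ) → Prop} {C₁ : (ℕ → ℝ) → ℝ} {h εg : ℝ} {cs cs' : ℕ → Cst}
    {n K N' k₁ : ℕ}
    {S : PCl n} {P : List (Fin n) × Fin n → ℝ → ℝ → ℝ} {θ : ℝ} {c : ℕ → Fin n} {Pt : ℝ → ℝ → ℝ}
    {r : ℝ → ℝ} {L T : ℕ → ℝ → ℝ → ℝ} {κ : ℕ → Kg} {G : Set ℝ} {g : ℝ} (hv : v + 3 = n)
    (hQ : CgsE v Φ C₁ h εg cs cs' (K, N') k₁ S P θ c Pt r L T κ G g) (N : ℕ) :
    ∃ k₀ : ℕ, ∀ {Sl : ℕ → ℝ} (_ : ∀ l < n, HasDerivAt (fun x => L l x x) (Sl l) g) (_ : Φ Sl)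
    (_ : ∀ l, 1 ≤ l → l ≤ v + 2 → 1 < Sl l) {X' vj' qr' ξ' μ' ν' X vj qr ξ μ ν dW yp K₀ M' M : ℝ}
    (_ : MuC (v + 1) Sl X' vj' qr' ξ' μ' ν' dW yp (cs' K).θ K₀ M' (N' + 1) ((1 / 2) ^ k₀))
    (_ : MuC (v + 1) Sl X vj qr ξ μ ν dW yp (cs K).θ K₀ M (N + 1) ((1 / 2) ^ k₀))
    (_ : M' ≤ M) (_ : M ≤ (N + 1) * M') (_ : 2 ^ k₁ * M' ≤ qr) (_ : qr' + ξ' + μ' < qr)
    (_ : qr' + ξ' + ν ≤ qr) (_ : ξ < (cs' K).κ * ξ') (_ : μ ≤ μ')
    (_ : ∀ l, 1 ≤ l → l ≤ v + 1 → Sl l * (X + 1) + C₁ Sl * (ξ + μ + ν) ≤ qr) (_ : 0 ≤ K₀)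
    {al : ℝ} {g₀ : ℝ → ℝ} {P₂ : ℕ → List (Fin n) × Fin n → ℝ → ℝ → ℝ} {θ₂ Eb e₂ : ℕ → ℝ}
    {S₀ N₀ : ℕ} {A V : ℕ → ℝ} {S₂ N₂ : ℕ} {V' : ℕ → ℝ} {K' ε q t : ℝ}
    (_ : RecG S al g₀ P θ P₂ θ₂ Eb e₂ c Pt r h K₀ g L T Sl κ G S₀ N₀ A V S₂ N₂ V' K' ε q t)
    (_ : ε ≤ (1 / 2) ^ k₀ * M) (_ : ε ≤ 1) (_ : (K₀ + 1) * (Sl (v + 2) + 1) + M ≤ K')
    (_ : yp + 4 ≤ K') (_ : M * q < (1 / 2) ^ k₀) (_ : t - q ∈ G)
    (_ : LbR S c 1 K (fun w l => L l w w) G g (2 ^ k₀ * (M * q)) (2 ^ k₀ * (M * q))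
      ((1 / 2) ^ k₀ * (M * q)) (v + 2)),
    CGs S c v K (t - q) (dW * q) (t + vj' * q) (t + X' * q) (t + vj * q) (t + X * q)
      (fun l => L l (t - q) (t - q) - yp * q) (fun l => L l (t - q) (t - q)) (qr' * q) (ξ' * q)
      (qr * q) (ξ * q) (μ * q) (cs K).κ (cs K).ι (cs K).k εg := by
  obtain ⟨k₀, hQ⟩ := hQ N
  refine ⟨k₀, ?_⟩
  intro Sl hd hΦ hS1 X' vj' qr' ξ' μ' ν' X vj qr ξ μ ν dW yp K₀ M' M Nm' Nm hMM hMN hk₁ hqq hqν
    hξξ hμμ hC₁ hK₀ al g₀ P₂ θ₂ Eb e₂ S₀ N₀ A V S₂ N₂ V' K' ε q t R hε hε1 hK' hyK hq hG hLb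
  have hq0 := R.q0
  have hM1 := Nm.M1
  have hM1' := Nm'.M1
  have hM0 : 0 < M := by linarith
  have hMq : 0 < M * q := mul_pos hM0 hq0
  have hng := R.near
  have hs1 := hS1 (v + 2) (by omega) le_rfl
  have hK0' : K₀ ≤ K' := by nlinarith
  have hC1 : (1 : ℝ) ≤ N + 1 := by linarith [Nat.cast_nonneg (α := ℝ) N]
  have hC1' : (1 : ℝ) ≤ N' + 1 := by linarith [Nat.cast_nonneg (α := ℝ) N']
  have nr : ∀ {a M₁ : ℝ}, K₀ + |a| ≤ M₁ → |t + a * q - g| ≤ M₁ * q := by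
    intro a M₁ ha
    have e1 : t + a * q - g = (t - g) + a * q := by ring
    rw [e1]
    refine (abs_add_le _ _).trans ?_
    rw [abs_mul, abs_of_pos hq0]
    nlinarith
  have nw : |t - q - g| ≤ M' * q := by
    have h1 := nr (a := -1) (M₁ := M') (by rw [abs_neg, abs_one]; exact hM1')
    have e1 : t + (-1) * q - g = t - q - g := by ring
    rwa [e1] at h1
  have hgt : |L (v + 2) g g - L (v + 2) t t| ≤ (Sl (v + 2) * K₀ + 1) * q := by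
    have h1 : |g - t| ≤ K₀ * q := by rw [abs_sub_comm]; exact hng
    have h2 := R.dL (v + 2) (by omega) g (h1.trans (mul_le_mul_of_nonneg_right hK0' hq0.le))
    have h3 : |Sl (v + 2) * (g - t)| ≤ Sl (v + 2) * K₀ * q := by
      rw [abs_mul, abs_of_pos (by linarith : (0 : ℝ) < Sl (v + 2)), mul_assoc]
      exact mul_le_mul_of_nonneg_left h1 (by linarith)
    have h4 := abs_le.1 h2
    have h5 := abs_le.1 h3
    have h6 : ε * q ≤ 1 * q := mul_le_mul_of_nonneg_right hε1 hq0.le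
    rw [abs_le]
    constructor <;> nlinarith [h4.1, h4.2, h5.1, h5.2]
  have hK'' : (K₀ + 1) * (Sl (v + 1 + 1) + 1) + M' ≤ K' := by
    show (K₀ + 1) * (Sl (v + 2) + 1) + M' ≤ K'
    linarith
  refine hQ Sl (fun l _ hl => hd l (by omega)) hΦ hS1 (M * q) hMq hq ?_ hLb (t - q) hG (M' * q)
    (t + vj' * q) (t + X' * q) (t + vj * q) (t + X * q)
    (mul_le_mul_of_nonneg_right hMM hq0.le) ?_ nw (nr Nm'.Mj) (nr Nm'.MX) (nr Nm.Mj) (nr Nm.MX)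
    (dW * q) (qr' * q) (ξ' * q) (μ' * q) (ν' * q) (qr * q) (ξ * q) (μ * q) (ν * q) (yp * q) _ _
    (Nm'.bx2 (by omega) hK₀ hC1' R hε1 hK'' hs1 hyK) (Nm.bx2 (by omega) hK₀ hC1 R hε1 hK' hs1 hyK)
    ?_ ?_ ?_ ?_ ?_ ?_ ?_ ?_ ?_ ?_ ?_ ?_ ?_ ?_ ?_ (mul_le_mul_of_nonneg_right hμμ hq0.le)
    fun l l0 l1 => ?_
  · -- the rate
    intro x y hx hy hxy
    have e1 : n - 1 = v + 2 := by omega
    have key : ∀ z : ℝ, |z - L (v + 2) g g| ≤ M * q → |z - L (n - 1) t t| ≤ K' * q := by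
      intro z hz
      rw [e1]
      have e2 : z - L (v + 2) t t = (z - L (v + 2) g g) + (L (v + 2) g g - L (v + 2) t t) := by
        ring
      rw [e2]
      refine (abs_add_le _ _).trans ((add_le_add hz hgt).trans ?_)
      nlinarith
    refine (R.row x y (key x hx) (key y hy) hxy).trans ?_
    have h1 : ε * q ≤ (1 / 2) ^ k₀ * M * q := mul_le_mul_of_nonneg_right hε hq0.le
    linarith [mul_assoc ((1 / 2 : ℝ) ^ k₀) M q]
  · have := mul_le_mul_of_nonneg_right hMN hq0.le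
    linarith [mul_assoc (N + 1 : ℝ) M' q]
  · have := mul_le_mul_of_nonneg_right Nm.ye hq0.le
    linarith [mul_assoc ((1 / 2 : ℝ) ^ k₀) M q]
  · have := mul_le_mul_of_nonneg_right Nm'.Cξ hq0.le
    rw [mul_div_right_comm]
    exact this
  · have := mul_le_mul_of_nonneg_right Nm'.Cν hq0.le
    rw [mul_div_right_comm]
    exact this
  · have := mul_le_mul_of_nonneg_right Nm'.μθ hq0.le
    linarith [mul_assoc (cs' K).θ ξ' q]
  · have := mul_le_mul_of_nonneg_right Nm'.νθ hq0.le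
    linarith [mul_assoc (cs' K).θ ξ' q]
  · have := mul_le_mul_of_nonneg_right Nm'.θq hq0.le
    linarith [mul_assoc (cs' K).θ ξ' q]
  · have := mul_le_mul_of_nonneg_right Nm.Cξ hq0.le
    rw [mul_div_right_comm]
    exact this
  · have := mul_le_mul_of_nonneg_right Nm.Cν hq0.le
    rw [mul_div_right_comm]
    exact this
  · have := mul_le_mul_of_nonneg_right Nm.μθ hq0.le
    linarith [mul_assoc (cs K).θ ξ q]
  · have := mul_le_mul_of_nonneg_right Nm.νθ hq0.le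
    linarith [mul_assoc (cs K).θ ξ q]
  · have := mul_le_mul_of_nonneg_right Nm.θq hq0.le
    linarith [mul_assoc (cs K).θ ξ q]
  · have := mul_le_mul_of_nonneg_right hk₁ hq0.le
    linarith [mul_assoc ((2 : ℝ) ^ k₁) M' q]
  · have := mul_lt_mul_of_pos_right hqq hq0
    linarith
  · have := mul_le_mul_of_nonneg_right hqν hq0.le
    linarith
  · have := mul_lt_mul_of_pos_right hξξ hq0
    show ξ * q < (cs' K).κ * (ξ' * q)
    linarith [mul_assoc (cs' K).κ ξ' q]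
  · have h1 := mul_le_mul_of_nonneg_right (hC₁ l l0 l1) hq0.le
    have h2 : Sl l * (t + X * q - (t - q)) + C₁ Sl * (ξ * q + μ * q + ν * q) =
        (Sl l * (X + 1) + C₁ Sl * (ξ + μ + ν)) * q := by ring
    rw [h2]
    exact h1

end Pool.AVG57
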