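import Pool.Agent.H31.AVN.Pge
import Pool.Agent.H71.FUL.Fus

/-!
# The part of the cell `[one, sta, thin]`, all thin slopes

`partST_all`: `PartST fun x => 1 < x`. `c1st`: the cell `[one, sta, thin]` of the assembly.
-/

set_option autoImplicit false

namespace Pool.ASM

open MeasureTheory Set Filter Topology
open Pool.Agent.H49.Ent Pool.Agent.H32.Dense Pool.STK Pool.KA Pool.KSAT Pool.K2S Pool.PB
open Pool.GEN Pool.S6C Pool.CHT Pool.PKG Pool.SW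
open Pool.AVG57 (VfQ VfPQ aePG_vf_mono aePG_vfp_or)
open Pool.FUL71 (aePG_vfp_gt)
open Pool.FUL95 (FulQ aePG_fulT)
open Pool.AVG50 (aePG_vfp)

/-- **The part, all thin slopes.** -/
theorem partST_all : PartST fun x => 1 < x := by
  obtain ⟨C₁, hC₁⟩ : ∃ C₁ : (ℕ → ℝ) → ℝ, C₁ = fun Sl => max (Sl 1 - 1) (1 / (Sl 2 + 1 - Sl 1)) :=
    ⟨_, rfl⟩
  have h1 : ∀ Sl : ℕ → ℝ, Sl 1 - 1 ≤ C₁ Sl := fun Sl => by
    rw [hC₁]
    exact le_max_left _ _
  have h2 : ∀ Sl : ℕ → ℝ, 1 / (Sl 2 + 1 - Sl 1) ≤ C₁ Sl := fun Sl => by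
    rw [hC₁]
    exact le_max_right _ _
  refine partST_full (fun x hx => hx) C₁ (fun Sl Sl' h => ?_) (fun Sl h => ?_)
    (fun hZ => vfST (fun x hx => hx) hZ) fun hZ => ?_
  · rw [hC₁]
    show max (Sl 1 - 1) (1 / (Sl 2 + 1 - Sl 1)) = max (Sl' 1 - 1) (1 / (Sl' 2 + 1 - Sl' 1))
    rw [h 1 le_rfl (by norm_num), h 2 (by norm_num) (by norm_num)]
  · have h3 := h1 Sl
    rw [h.1] at h3
    linarith
  · have hf := aePG_fulT fun k a b => hZ k a (by omega)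
    refine aePG_vfp_or (aePG_vfp le_rfl (fun Sl _ => h1 Sl) hf)
      (aePG_vfp_gt le_rfl (fun Sl _ => h2 Sl) hf) fun Sl h => ?_
    rcases le_total (Sl 1) (Sl 2) with h4 | h4
    · exact Or.inl ⟨⟨trivial, h4⟩, le_rfl⟩
    · refine Or.inr ⟨⟨trivial, h4, ?_⟩, le_rfl⟩
      have h5 := h.2.2
      rw [h.1]
      linarith

/-- **The cell** `[one, sta, thin]` of the assembly. -/
theorem c1st : LCellM 4 [Kd.one, Kd.sta, Kd.thin] := c1st_of1 partST_all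

end Pool.ASM
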