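import Pool.Agent.H31.AVN.Psx
import Pool.Agent.H31.NJ.Vgq
import Pool.Agent.H50.AVN.Afp
import Pool.Agent.H95.VF.Fge

/-!
# The part of the cell `[one, sta, thin]` with the thin slope at least two

`partST_ge`: `PartST fun x => 2 ≤ x`.
-/

set_option autoImplicit false

namespace Pool.ASM

open MeasureTheory Set Filter Topology
open Pool.Agent.H49.Ent Pool.Agent.H32.Dense Pool.STK Pool.KA Pool.KSAT Pool.K2S Pool.PB
open Pool.GEN Pool.S6C Pool.CHT Pool.PKG Pool.SW
open Pool.AVG57 (VfQ VfPQ aePG_vf_mono aePG_vfp_mono)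
open Pool.FUL71 (aePG_vful')
open Pool.FUL95 (FulQ aePG_fulT)
open Pool.AVG50 (aePG_vfp)

/-- **The moved place is full** for the slopes of the part. -/
theorem vfST {s : ℝ → Prop} (hs : ∀ x, s x → 1 < x) (hZ : ∀ k, 1 ≤ k → k < 4 → FZX k) :
    AePG 4 (VfQ 2 (PhST s) : PropG 4 Unit) :=
  aePG_vf_mono (aePG_vful' le_rfl (aePG_fulT fun k a b => hZ k a (by omega))) fun Sl h =>
    ⟨trivial, by rw [h.1]; linarith [hs _ h.2.2]⟩

/-- **The part, thin slopes at least two.** -/
theorem partST_ge : PartST fun x => 2 ≤ x := by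
  refine partST_full (fun x hx => by linarith) (fun Sl => Sl 1 - 1)
    (fun Sl Sl' h => by rw [h 1 le_rfl (by norm_num)]) (fun Sl h => by rw [h.1]; norm_num)
    (fun hZ => vfST (fun x hx => by linarith) hZ) fun hZ => ?_
  exact aePG_vfp_mono (aePG_vfp le_rfl (C₁ := fun Sl => Sl 1 - 1) (fun _ _ => le_rfl)
    (aePG_fulT fun k a b => hZ k a (by omega))) fun Sl h =>
    ⟨⟨trivial, by rw [h.1]; exact h.2.2⟩, le_rfl⟩

end Pool.ASM
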