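import Pool.Agent.H31.AVN.Wst
import Pool.Agent.H66.D2.C1s
import Pool.Agent.H90.D2.Css

/-!
# The part of the cell `[one, sta, thin]` with the critical slope

`partST_of`: the part, from the closed gradient of the second place below the target at almost every
window.
-/

set_option autoImplicit false

namespace Pool.ASM

open MeasureTheory Set Filter Topology
open Pool.Agent.H49.Ent Pool.Agent.H32.Dense Pool.STK Pool.KA Pool.KSAT Pool.K2S Pool.PB
open Pool.GEN Pool.S6C Pool.CHT Pool.PKG Pool.SW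
open Pool.AVG57 (Cst CgsQ)
open Pool.TN (QCgs aePG_qcgs celQI_cgs cellS_st)

/-- The slopes of the part `[one, sta, thin]`, static slope two, critical target, thin slopes with
`s`. -/
def PhST (s : ℝ → Prop) (Sl : ℕ → ℝ) : Prop := Sl 1 = 2 ∧ Sl 3 = 1 + Sl 2 ∧ s (Sl 2)

/-- **The closed gradient of the second place below the target at almost every window**, for the
slopes of the part. -/
def CgST (s : ℝ → Prop) : Prop := ∀ h : ℝ, 0 < h → h ≤ 1 →
  ∃ (C₁ : (ℕ → ℝ) → ℝ) (cs cs' : ℕ → Cst), (∀ Sl, PhST s Sl → 0 ≤ C₁ Sl) ∧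
    (∀ K, (cs K).Ok) ∧ (∀ K, (cs' K).Ok) ∧
    ((∀ k, 1 ≤ k → k < 4 → FZX k) →
      AePG 4 (CgsQ 1 (PhST s) C₁ h cs cs' : PropG 4 (ℕ × ℕ)))

/-- **The part** from the closed gradient. -/
theorem partST_of {s : ℝ → Prop} (hs : ∀ x, s x → 1 < x) (H : CgST s) : PartST s := by
  intro h h0 h1
  obtain ⟨C₁, cs, cs', hC₁, hok, hok', H⟩ := H h h0 h1
  refine ⟨((Unit ⊕ Unit) ⊕ Unit) ⊕ (ℕ × ℕ), inferInstance, QCgs 4 1 (PhST s) C₁ h cs cs',
    fun hZ => aePG_qcgs (H hZ), fun Sl k0 k1 k2 k3 hsl => ?_⟩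
  have k2' := hs _ k2
  have hΦ : PhST s Sl := ⟨k1, k3, k2⟩
  have hκ : ∀ l < 3, kgL [Kd.one, Kd.sta, Kd.thin] l =
      ofKd ((fun l => [Kd.one, Kd.sta, Kd.thin].getD l .one) l) := fun l hl => by
    rw [kgL_lt (κ := [Kd.one, Kd.sta, Kd.thin]) hl]
    beta_reduce
    rw [List.getD_eq_getElem _ _ hl]
  exact celQI_cgs (v := 1) (E := 2 * Sl 2)
    (κ' := fun l => [Kd.one, Kd.sta, Kd.thin].getD l .one) rfl
    (kgL_len [Kd.one, Kd.sta, Kd.thin]) hκ (cellS_st rfl rfl rfl k0 k1 k2' k3)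
    (fun l hl => hsl l (by omega)) (fun l hl => by
      show Sl l < Sl 3
      obtain rfl | rfl | rfl : l = 0 ∨ l = 1 ∨ l = 2 := by omega
      · rw [k0, k3]; linarith
      · rw [k1, k3]; linarith
      · rw [k3]; linarith) (fun l l0 l1 => by
      obtain rfl | rfl | rfl : l = 1 ∨ l = 2 ∨ l = 3 := by omega
      · rw [k1]; norm_num
      · exact k2'
      · rw [k3]; linarith) hΦ (hC₁ Sl hΦ) hok hok'

end Pool.ASM
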