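import Pool.Agent.H31.AVN.Pst
import Pool.Agent.H31.AVN.Cgt

/-!
# The part of the cell `[one, sta, thin]` from the fullness of the places

`cgST_of`, `partST_full`: from the fullness of the place `2` and the fullness of the pair `1, 2` at
almost every window.
-/

set_option autoImplicit false

namespace Pool.ASM

open MeasureTheory Set Filter Topology
open Pool.Agent.H49.Ent Pool.Agent.H32.Dense Pool.STK Pool.KA Pool.KSAT Pool.K2S Pool.PB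
open Pool.GEN Pool.S6C Pool.CHT Pool.PKG Pool.SW
open Pool.AVG57 (Cst CgsQ VfQ VfPQ aePG_cgs)

/-- **The closed gradient** from the fullness of the place `2` and of the pair of places. -/
theorem cgST_of {s : ℝ → Prop} (C₁ : (ℕ → ℝ) → ℝ)
    (hCc : ∀ Sl Sl' : ℕ → ℝ, (∀ l, 1 ≤ l → l ≤ 3 → Sl l = Sl' l) → C₁ Sl = C₁ Sl')
    (hC₁ : ∀ Sl, PhST s Sl → 0 ≤ C₁ Sl)
    (h1 : (∀ k, 1 ≤ k → k < 4 → FZX k) → AePG 4 (VfQ 2 (PhST s) : PropG 4 Unit))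
    (h2 : (∀ k, 1 ≤ k → k < 4 → FZX k) → AePG 4 (VfPQ 1 (PhST s) C₁ : PropG 4 ℕ)) :
    CgST s := by
  intro h h0 h1'
  obtain ⟨cs, cs', hok, hok', H⟩ := aePG_cgs (v := 1) (Φ := PhST s) le_rfl C₁ hCc h0 h1'
    (εg := 1 / 2) (by norm_num)
  exact ⟨C₁, cs, cs', hC₁, hok, hok', fun hZ => H rfl rfl (h1 hZ) (h2 hZ)⟩

/-- **The part** from the fullness of the place `2` and of the pair of places. -/
theorem partST_full {s : ℝ → Prop} (hs : ∀ x, s x → 1 < x) (C₁ : (ℕ → ℝ) → ℝ)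
    (hCc : ∀ Sl Sl' : ℕ → ℝ, (∀ l, 1 ≤ l → l ≤ 3 → Sl l = Sl' l) → C₁ Sl = C₁ Sl')
    (hC₁ : ∀ Sl, PhST s Sl → 0 ≤ C₁ Sl)
    (h1 : (∀ k, 1 ≤ k → k < 4 → FZX k) → AePG 4 (VfQ 2 (PhST s) : PropG 4 Unit))
    (h2 : (∀ k, 1 ≤ k → k < 4 → FZX k) → AePG 4 (VfPQ 1 (PhST s) C₁ : PropG 4 ℕ)) :
    PartST s :=
  partST_of hs (cgST_of C₁ hCc hC₁ h1 h2)

end Pool.ASM
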