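import Pool.Agent.H31.AVN.Csq
import Pool.Agent.H31.AVN.Net
import Pool.Agent.H31.D2.Mus
import Pool.Agent.H90.D2.Cls
import Pool.Agent.H50.LBR.La
import Pool.Agent.H88.D2.Cqi
import Pool.Agent.H80.DIC.Mono
import Pool.Agent.H91.FR.QpG

/-!
# A cell from the closed gradient of the second place below the target

`celQI_cgs`: the class theorem of a cell at a window, from the class theorem with the hypothesis
`CGs` and the property `CgsQ` of the windows.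
-/

set_option autoImplicit false

namespace Pool.TN

open Finset Real MvPolynomial MeasureTheory Filter Topology
open Pool.Agent.H49.Ent Pool.Agent.H32.Dense Pool.STK Pool.KA Pool.KSAT Pool.K2S Pool.PB Pool.S6C
open Pool.GEN Pool.CHT Pool.RCD Pool.LA91
open Pool.AVG57 (CGs CgsQ Cst MuC cgs_use)
open Pool.PKG (RecQ RecG Kd Kg ofKd PropG AePG CelQI)
open Pool.CDX (LbR netl_ex)
open Pool.LBR50 (LbNQ recG_lbr)
open Pool.V0F (ChUQ AttUQ)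

/-- **The property**: the class is maximal for labels, the chain, the labels of the target; the closed
gradient of the second place below the target. -/
def QCgs (n v : ℕ) (Φ : (ℕ → ℝ) → Prop) (C₁ : (ℕ → ℝ) → ℝ) (h : ℝ) (cs cs' : ℕ → Cst) :
    PropG n (((Unit ⊕ Unit) ⊕ Unit) ⊕ (ℕ × ℕ)) :=
  sumQ (sumQ (sumQ LbNQ ChUQ) AttUQ) (CgsQ v Φ C₁ h cs cs')

theorem aePG_qcgs {n v : ℕ} {Φ : (ℕ → ℝ) → Prop} {C₁ : (ℕ → ℝ) → ℝ} {h : ℝ} {cs cs' : ℕ → Cst}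
    (H : AePG n (CgsQ v Φ C₁ h cs cs' : PropG n (ℕ × ℕ))) : AePG n (QCgs n v Φ C₁ h cs cs') :=
  aePG_sum (aePG_sum (aePG_sum (Pool.LBR50.aePG_lbn n) (Pool.LBR50.her_lbn n)
    (Pool.V0F.aePG_chU n)) (her_sum (Pool.LBR50.her_lbn n) (Pool.V0F.her_chU n))
    (Pool.V0F.aePG_attU n)) (her_sum (her_sum (Pool.LBR50.her_lbn n) (Pool.V0F.her_chU n))
    (Pool.V0F.her_attU n)) H

/-- **A cell from the closed gradient** of the second place below the target. -/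
theorem celQI_cgs {n v : ℕ} (hv : v + 3 = n) {E : ℝ} {Sl : ℕ → ℝ} {κ' : ℕ → Kd} {κ : ℕ → Kg}
    (hκi : κ (v + 2) = .stp) (hκ : ∀ l < v + 2, κ l = ofKd (κ' l)) (hC : CellS n v E Sl κ')
    (h1 : ∀ l ≤ v + 1, 1 ≤ Sl l) (h2 : ∀ l ≤ v + 1, Sl l < Sl (v + 2))
    (hS1 : ∀ l, 1 ≤ l → l ≤ v + 2 → 1 < Sl l) {Φ : (ℕ → ℝ) → Prop} (hΦ : Φ Sl)
    {C₁ : (ℕ → ℝ) → ℝ} (hC₁ : 0 ≤ C₁ Sl) {h : ℝ} {cs cs' : ℕ → Cst} (hok : ∀ K, (cs K).Ok) (hok' : ∀ K, (cs' K).Ok) :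
    CelQI n (v + 2) h Sl κ (QCgs n v Φ C₁ h cs cs') := by
  intro al hal K₀ hK₀ del hdel S₀ hS₀ S g₀ P θ c Pt r L T G g hGc hgG hd hQ
  obtain ⟨ka, hLbN⟩ := hQ (Sum.inl (Sum.inl (Sum.inl ())))
  obtain ⟨_, hChU⟩ := hQ (Sum.inl (Sum.inl (Sum.inr ())))
  obtain ⟨kA, hAtt⟩ := hQ (Sum.inl (Sum.inr ()))
  obtain ⟨D, hD, hlbr⟩ := recG_lbr n S₀ (by omega) hS₀
  obtain ⟨D₀, hD₀, hC⟩ := hC S₀ hS₀
  obtain ⟨Dc, hDc⟩ : ∃ Dc, Dc = max D₀ D := ⟨_, rfl⟩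
  have hDc1 : D₀ ≤ Dc := by rw [hDc]; exact le_max_left _ _
  have hDc2 : D ≤ Dc := by rw [hDc]; exact le_max_right _ _
  -- the numbers
  obtain ⟨X', Sm, ξ', qr', μ', ν', vj', ξ, NA, hξ0, hξκ, HB⟩ := mus_ex h1 h2 (hok' Dc).κ0
    (hok Dc).κ0 (hok' Dc).θ0 (hok' Dc).θ1 (hok Dc).θ0 (hok Dc).θ1 hC₁ E
  have hX'0 : (0 : ℝ) ≤ X' := Nat.cast_nonneg X'
  obtain ⟨M', hM'⟩ : ∃ M', M' = K₀ + X' + 1 := ⟨_, rfl⟩
  have hM'1 : 1 ≤ M' := by rw [hM']; linarith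
  obtain ⟨N', -, n1, n2, n3⟩ := NA.nat_ex hM'1 0
  obtain ⟨k₁, hCg⟩ := hQ (Sum.inr (Dc, N'))
  obtain ⟨X, qr, μ, ν, vj, dW, τ, NB, yC, yq, -, y1, y2, y3, y4, y5, y6, y7, -, -, MS⟩ :=
    HB (2 ^ k₁ * M')
  have hX0 : (0 : ℝ) ≤ X := Nat.cast_nonneg X
  obtain ⟨M, hM⟩ : ∃ M, M = K₀ + X + 1 := ⟨_, rfl⟩
  have hXX : (X' : ℝ) ≤ X := by exact_mod_cast MS.XX
  have hM1 : 1 ≤ M := by rw [hM]; linarith
  obtain ⟨N, n0, m1, m2, m3⟩ := NB.nat_ex hM1 M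
  obtain ⟨k₀, huse⟩ := cgs_use (by omega) hCg N
  have hk0 : (0 : ℝ) < (1 / 2) ^ k₀ := by positivity
  have hk1 : (1 / 2 : ℝ) ^ k₀ ≤ 1 := pow_le_one₀ (by norm_num) (by norm_num)
  have hk2 : (0 : ℝ) < 2 ^ k₀ := by positivity
  obtain ⟨yp, hyp⟩ : ∃ yp : ℝ, yp = min (min (ν / 8) (ν' / 8))
    (min (min (μ / 2) (μ' / 2)) ((1 / 2) ^ k₀)) := ⟨_, rfl⟩
  have hν0 := NB.ν0
  have hμ0 := NB.μ0
  have hν'0 := NA.ν0
  have hμ'0 := NA.μ0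
  have yp0 : 0 < yp := by
    rw [hyp]
    exact lt_min (lt_min (by positivity) (by positivity))
      (lt_min (lt_min (by positivity) (by positivity)) hk0)
  have yp1 : yp ≤ ν / 8 := by rw [hyp]; exact (min_le_left _ _).trans (min_le_left _ _)
  have yp2 : yp ≤ ν' / 8 := by rw [hyp]; exact (min_le_left _ _).trans (min_le_right _ _)
  have yp3 : yp ≤ μ / 2 := by
    rw [hyp]; exact (min_le_right _ _).trans ((min_le_left _ _).trans (min_le_left _ _))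
  have yp4 : yp ≤ μ' / 2 := by
    rw [hyp]; exact (min_le_right _ _).trans ((min_le_left _ _).trans (min_le_right _ _))
  have yp5 : yp ≤ (1 / 2) ^ k₀ := by
    rw [hyp]; exact (min_le_right _ _).trans (min_le_right _ _)
  -- the cell
  obtain ⟨Kc, Nc, Ac, Vc, c1, c2, hC⟩ := hC Dc hDc1 del hdel X' X Sm ξ' qr' μ' vj' (cs' Dc).κ ξ qr
    μ vj (cs Dc).κ dW τ yp yp0 MS
  refine ⟨Kc, Nc, Ac, Vc, c1, c2, fun S₂ hS₂ => ?_⟩
  obtain ⟨Nd, Vd, d1, εd, hεd, hC⟩ := hC S₂ hS₂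
  -- the windows
  obtain ⟨W, hW⟩ : ∃ W : ℝ, W = 2 ^ k₀ * M + K₀ := ⟨_, rfl⟩
  obtain ⟨ε₁, hε₁⟩ : ∃ ε₁ : ℝ, ε₁ = (1 / 2) ^ k₀ * M := ⟨_, rfl⟩
  have hW0 : 0 ≤ W := by rw [hW]; positivity
  have hε₁0 : 0 < ε₁ := by rw [hε₁]; positivity
  obtain ⟨Xb, hXb⟩ : ∃ Xb : ℝ, Xb = |(K₀ + 1) * (Sl (v + 2) + 1) + M| + 5 + 2 ^ k₀ * M := ⟨_, rfl⟩
  obtain ⟨N'', V'', K'', e0, e1, e2, e3, e4, ⟨jm, jm1, jm2⟩, e5⟩ := netl_ex hW0 hε₁0 Nd Vd d1 Xb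
  have e2a : (K₀ + 1) * (Sl (v + 2) + 1) + M ≤ K'' := by
    have h3 := le_abs_self ((K₀ + 1) * (Sl (v + 2) + 1) + M)
    have h4 : 0 ≤ 2 ^ k₀ * M := by positivity
    linarith
  have e2b : yp + 4 ≤ K'' := by
    have h3 := abs_nonneg ((K₀ + 1) * (Sl (v + 2) + 1) + M)
    have h4 : 0 ≤ 2 ^ k₀ * M := by positivity
    linarith
  have e2c : 2 ^ k₀ * M < 3 * K'' := by
    have h3 := abs_nonneg ((K₀ + 1) * (Sl (v + 2) + 1) + M)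
    linarith
  obtain ⟨ε, hε⟩ : ∃ ε : ℝ, ε = min εd (min ((1 / 2) ^ k₀ * M) 1) := ⟨_, rfl⟩
  have ε0 : 0 < ε := by rw [hε]; exact lt_min hεd (lt_min (by positivity) one_pos)
  have ε1 : ε ≤ εd := by rw [hε]; exact min_le_left _ _
  have ε2 : ε ≤ (1 / 2) ^ k₀ * M := by
    rw [hε]; exact (min_le_right _ _).trans (min_le_left _ _)
  have ε3 : ε ≤ 1 := by rw [hε]; exact (min_le_right _ _).trans (min_le_right _ _)
  have hkA : (0 : ℝ) < (1 / 2) ^ kA := by positivity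
  obtain ⟨q₁, hq₁⟩ : ∃ q₁ : ℝ, q₁ = min ((1 / 2) ^ k₀ / M) (min ((1 / 2) ^ kA / (K'' + K₀))
    ((1 / 2) ^ kA / (2 ^ k₀ * M))) := ⟨_, rfl⟩
  have hM0 : 0 < M := by linarith
  have q0 : 0 < q₁ := by
    rw [hq₁]
    exact lt_min (by positivity) (lt_min (by positivity) (by positivity))
  refine ⟨K'', N'', V'', e1, e3, ε, q₁, ε0, q0, ?_⟩
  intro P₂ θ₂ Eb e₂ q t hq R
  have hqp := R.q0
  have q1 : M * q < (1 / 2) ^ k₀ := by
    have h3 : q < (1 / 2) ^ k₀ / M := hq.trans_le (by rw [hq₁]; exact min_le_left _ _)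
    rw [lt_div_iff₀ hM0] at h3
    linarith
  have q2 : (K'' + K₀) * q ≤ (1 / 2) ^ kA := by
    have h3 : q < (1 / 2) ^ kA / (K'' + K₀) := hq.trans_le (by
      rw [hq₁]; exact (min_le_right _ _).trans (min_le_left _ _))
    rw [lt_div_iff₀ (by positivity)] at h3
    linarith
  have q3 : 2 ^ k₀ * (M * q) < (1 / 2) ^ kA := by
    have h3 : q < (1 / 2) ^ kA / (2 ^ k₀ * M) := hq.trans_le (by
      rw [hq₁]; exact (min_le_right _ _).trans (min_le_right _ _))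
    rw [lt_div_iff₀ (by positivity)] at h3
    linarith
  have hGm : t - q ∈ G := by
    have h3 := R.memG.2 jm jm1
    rw [jm2] at h3
    have h4 : t + -1 * q = t - q := by ring
    rwa [h4] at h3
  -- the labels
  have hL := hlbr (k₁ := 0) R e0 (fun k hk => abs_le.2 (e3 k hk)) hLbN hChU hAtt q2 W ε₁ (2 ^ k₀ * (M * q))
    (by positivity) (by
      have h3 := mul_lt_mul_of_pos_right e2c hqp
      linarith) q3 e5 (2 ^ k₀ * (M * q)) (by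
      rw [hW]
      have h3 : (2 ^ k₀ * M + K₀) * q = 2 ^ k₀ * (M * q) + K₀ * q := by ring
      rw [h3])
  have hL' : LbR S c 1 Dc (fun w l => L l w w) G g (2 ^ k₀ * (M * q)) (2 ^ k₀ * (M * q))
      ((1 / 2) ^ k₀ * (M * q)) (v + 2) := by
    have h3 := hL.deg hDc2
    have h4 : ε₁ * q = (1 / 2) ^ k₀ * (M * q) := by rw [hε₁]; ring
    have h5 : n - 1 = v + 2 := by omega
    rw [h4, h5] at h3
    exact h3
  -- the numbers of the record theorem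
  have hkM' : (1 / 2 : ℝ) ^ k₀ ≤ (1 / 2) ^ k₀ * (K₀ + X' + 1) :=
    le_mul_of_one_le_right hk0.le (by linarith)
  have hkM : (1 / 2 : ℝ) ^ k₀ ≤ (1 / 2) ^ k₀ * (K₀ + X + 1) :=
    le_mul_of_one_le_right hk0.le (by linarith)
  have NA' := NA.muC (v := v + 1) (K₀ := K₀) (C := N' + 1) (dW := dW) (yp := yp)
    (e := (1 / 2) ^ k₀) (by positivity) (by rw [← hM']; exact n1) (by rw [← hM']; exact n2)
    (by rw [← hM']; exact n3) y3 y4 y5 yp0.le yp2 (by linarith) (by linarith)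
  have NB' := NB.muC (v := v + 1) (K₀ := K₀) (C := N + 1) (dW := dW) (yp := yp)
    (e := (1 / 2) ^ k₀) (by positivity) (by rw [← hM]; exact m1) (by rw [← hM]; exact m2)
    (by rw [← hM]; exact m3) y3 y6 y7 yp0.le yp1 (by linarith) (by linarith)
  rw [← hM'] at NA'
  rw [← hM] at NB'
  have hCG := huse (Sl := Sl) hd hΦ hS1 NA' NB' (by rw [hM, hM']; linarith) (by
      have h3 : (N + 1 : ℝ) ≤ (N + 1) * M' := le_mul_of_one_le_right (by positivity) hM'1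
      linarith) yq MS.qq y1 MS.xi MS.mm
      (fun l _ hl => yC l hl) hK₀.le R ε2 ε3 e2a e2b q1 hGm hL'
  have R' := R.mono (K₁ := Kc) (ε₁ := εd) (N₁ := Nc) (A₁ := Ac) (V₁ := Vc) (N₁' := Nd)
    (V₁' := Vd) e1 ε1 (fun k hk => ⟨k, hk, rfl, rfl⟩) e4
  have R'' := R'.recQ (i := v + 2) (by omega) (by omega) hκi hκ
  exact hC S P (P₂ (v + 2)) θ (θ₂ (v + 2)) c (L (v + 2)) L T (Eb (v + 2)) (e₂ (v + 2)) q t R''
    (fun l => L l (t - q) (t - q) - yp * q) (fun l => L l (t - q) (t - q)) _ _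
    (fun l _ => ⟨le_rfl, le_rfl⟩) hCG

end Pool.TN
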